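import Pool.Agent.Run7.h523.KF.Iface3

/-!
# Project KF, piece GP1: lines of the first type
-/

set_option autoImplicit false

namespace Run7.h760.KF

open MeasureTheory Set Filter Topology Run7.h523.KF
open scoped ENNReal

section cov

variable {P : Type} [Fintype P]

/-- change of variables for a rank one perturbation of the identity -/
theorem cov (f : Module.Dual ℝ (P → ℝ)) (e : P → ℝ) (hd : 1 + f e ≠ 0) (F : (P → ℝ) → ℝ)
    (hF : Measurable F) : ∫ y, F (y + f y • e) = |(1 + f e)⁻¹| * ∫ y, F y := by
  have hdet : LinearMap.det (LinearMap.transvection f e) = 1 + f e :=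
    LinearMap.transvection.det f e
  have h := Measure.map_linearMap_addHaar_eq_smul_addHaar (volume : Measure (P → ℝ))
    (f := LinearMap.transvection f e) (by rw [hdet]; exact hd)
  rw [hdet] at h
  have hc : Continuous (LinearMap.transvection f e) := LinearMap.continuous_of_finiteDimensional _
  have h1 := integral_map (μ := (volume : Measure (P → ℝ))) hc.measurable.aemeasurable
    (f := F) hF.aestronglyMeasurable
  rw [h, integral_smul_measure, ENNReal.toReal_ofReal (abs_nonneg _), smul_eq_mul] at h1
  exact h1.symm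

end cov

section lev

variable {P : Type} [Fintype P] [DecidableEq P]

/-- level of a label -/
def rr (x : P → ℤ) (v : P) : ℕ := ((x v).natAbs + 1) / 2

/-- sign of a label -/
noncomputable def ep (x : P → ℤ) (v : P) : ℝ := if 0 < x v then 1 else -1

omit [Fintype P] [DecidableEq P] in
theorem ep_sq (x : P → ℤ) (v : P) : ep x v * ep x v = 1 := by
  unfold ep
  split_ifs <;> norm_num

omit [Fintype P] [DecidableEq P] in
theorem abs_ep (x : P → ℤ) (v : P) : |ep x v| = 1 := by
  unfold ep
  split_ifs <;> norm_num

variable {x : P → ℤ}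

theorem of_mem_Om {R : P × Bool → P × Bool → Prop} {M : ℕ} {z : P → ℤ} (h : z ∈ Om R M) :
    (∀ v, z v ∈ Si M) ∧ ∀ v w, |z v| = |z w| → v = w := by
  simp only [Om, Finset.mem_filter, Fintype.mem_piFinset] at h
  exact ⟨h.1, h.2.1⟩

theorem mem_XX (hx : x ∈ XX P) (v : P) :
    Odd (x v) ∧ -(2 * (Fintype.card P : ℤ)) < x v ∧ x v < 2 * (Fintype.card P : ℤ) := by
  have h1 := (of_mem_Om hx).1 v
  simp only [Si, Finset.mem_filter, Finset.mem_Ioo] at h1
  exact ⟨h1.2, h1.1.1, h1.1.2⟩

theorem XX_inj (hx : x ∈ XX P) {v w : P} (h : |x v| = |x w|) : v = w := by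
  exact (of_mem_Om hx).2 v w h

theorem rr_spec (hx : x ∈ XX P) (v : P) :
    1 ≤ rr x v ∧ rr x v ≤ Fintype.card P ∧ |x v| = 2 * (rr x v : ℤ) - 1 := by
  obtain ⟨h1, h2, h3⟩ := mem_XX hx v
  obtain ⟨k, hk⟩ := h1
  unfold rr
  have h4 : |x v| = ((x v).natAbs : ℤ) := Int.abs_eq_natAbs _
  rw [h4]
  omega

theorem rr_inj (hx : x ∈ XX P) : Function.Injective (rr x) := by
  intro v w h
  apply XX_inj hx
  rw [(rr_spec hx v).2.2, (rr_spec hx w).2.2, h]

theorem rr_surj (hx : x ∈ XX P) {i : ℕ} (h1 : 1 ≤ i) (h2 : i ≤ Fintype.card P) :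
    ∃ v, rr x v = i := by
  have hs : (Finset.univ.image (rr x)) = Finset.Icc 1 (Fintype.card P) := by
    apply Finset.eq_of_subset_of_card_le
    · intro j hj
      obtain ⟨v, -, rfl⟩ := Finset.mem_image.1 hj
      exact Finset.mem_Icc.2 ⟨(rr_spec hx v).1, (rr_spec hx v).2.1⟩
    · rw [Finset.card_image_of_injective _ (rr_inj hx), Nat.card_Icc, Finset.card_univ]
      simp
  have hi : i ∈ Finset.univ.image (rr x) := by
    rw [hs]
    exact Finset.mem_Icc.2 ⟨h1, h2⟩
  obtain ⟨v, -, hv⟩ := Finset.mem_image.1 hi
  exact ⟨v, hv⟩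

theorem uu_rr [Nonempty P] (hx : x ∈ XX P) (y : P → ℝ) (v : P) :
    uu x y (rr x v) = ep x v * y v := by
  obtain ⟨h1, h2, h3⟩ := rr_spec hx v
  unfold uu
  rw [if_neg (by omega)]
  have hex : ∃ a : P × Bool, sv x a = 2 * (rr x v : ℤ) - 1 := by
    rcases le_or_gt (x v) 0 with h | h
    · refine ⟨(v, false), ?_⟩
      rw [← h3, abs_of_nonpos h]
      simp [sv]
    · refine ⟨(v, true), ?_⟩
      rw [← h3, abs_of_pos h]
      simp [sv]
  have hl : sv x (lab x (2 * (rr x v : ℤ) - 1)) = 2 * (rr x v : ℤ) - 1 :=
    Classical.epsilon_spec hex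
  generalize lab x (2 * (rr x v : ℤ) - 1) = a at hl
  obtain ⟨w, b⟩ := a
  have hw : w = v := by
    apply XX_inj hx
    rw [h3]
    cases b
    · simp only [sv] at hl
      have : -x w = 2 * (rr x v : ℤ) - 1 := by simpa using hl
      rw [← abs_neg, this, abs_of_pos (by omega)]
    · simp only [sv] at hl
      have : x w = 2 * (rr x v : ℤ) - 1 := by simpa using hl
      rw [this, abs_of_pos (by omega)]
  subst hw
  cases b
  · have : -x w = 2 * (rr x w : ℤ) - 1 := by simpa [sv] using hl
    have h4 : ¬ 0 < x w := by omega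
    simp [sv, ep, h4]
  · have : x w = 2 * (rr x w : ℤ) - 1 := by simpa [sv] using hl
    have h4 : 0 < x w := by omega
    simp [sv, ep, h4]

/-- the vector with given values at the levels -/
noncomputable def vec (x : P → ℤ) (w : ℕ → ℝ) : P → ℝ := fun v => ep x v * w (rr x v)

theorem uu_vec [Nonempty P] (hx : x ∈ XX P) (w : ℕ → ℝ) {i : ℕ} (h1 : 1 ≤ i)
    (h2 : i ≤ Fintype.card P) : uu x (vec x w) i = w i := by
  obtain ⟨v, rfl⟩ := rr_surj hx h1 h2
  rw [uu_rr hx, vec, ← mul_assoc, ep_sq, one_mul]

theorem vec_uu [Nonempty P] (hx : x ∈ XX P) (y : P → ℝ) : vec x (uu x y) = y := by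
  funext v
  rw [vec, uu_rr hx, ← mul_assoc, ep_sq, one_mul]

omit [DecidableEq P] in
theorem uu_zero [Nonempty P] (y : P → ℝ) : uu x y 0 = 0 := by simp [uu]

omit [DecidableEq P] in
theorem uu_add [Nonempty P] (y e : P → ℝ) (s : ℝ) (i : ℕ) :
    uu x (y + s • e) i = uu x y i + s * uu x e i := by
  unfold uu
  split_ifs
  · ring
  · unfold sv
    split_ifs
    · simp
    · simp
      ring

omit [DecidableEq P] in
theorem gp_add [Nonempty P] (y e : P → ℝ) (s : ℝ) (j : ℕ) :
    gp x (y + s • e) j = gp x y j + s * gp x e j := by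
  unfold gp
  rw [uu_add, uu_add]
  ring

/-- the gap as a linear form -/
noncomputable def gpL [Nonempty P] (x : P → ℤ) (j : ℕ) : Module.Dual ℝ (P → ℝ) where
  toFun y := gp x y j
  map_add' y z := by
    have := gp_add (x := x) y z 1 j
    rw [one_smul, one_mul] at this
    exact this
  map_smul' c y := by
    have h := gp_add (x := x) 0 y c j
    have h0 : gp x 0 j = 0 := by
      have := gp_add (x := x) 0 0 1 j
      rw [one_smul, one_mul, add_zero] at this
      linarith
    rw [zero_add, h0, zero_add] at h
    simpa using h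

omit [DecidableEq P] in
theorem gpL_apply [Nonempty P] (j : ℕ) (y : P → ℝ) : gpL x j y = gp x y j := rfl

omit [DecidableEq P] in
theorem measurable_gp [Nonempty P] (j : ℕ) : Measurable fun y : P → ℝ => gp x y j :=
  (LinearMap.continuous_of_finiteDimensional (gpL x j)).measurable

theorem uu_eq_sum [Nonempty P] (y : P → ℝ) (i j : ℕ) (hij : i ≤ j) :
    uu x y j = uu x y i + ∑ l ∈ Finset.Ico i j, gp x y l := by
  induction j, hij using Nat.le_induction with
  | base => simp
  | succ j hj ih =>
    rw [Finset.sum_Ico_succ_top hj, ← add_assoc, ← ih]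
    unfold gp
    ring

/-- the chamber in terms of the gaps -/
theorem mem_Ch [Nonempty P] (hx : x ∈ XX P) (y : P → ℝ) :
    y ∈ Ch x ↔ ∀ j < Fintype.card P, 0 < gp x y j := by
  constructor
  · intro hy j hj
    unfold gp
    obtain ⟨v, hv⟩ := rr_surj hx (i := j + 1) (by omega) (by omega)
    have h1 := uu_rr hx y v
    rw [hv] at h1
    have s1 := (rr_spec hx v).2.2
    rw [hv] at s1
    rcases Nat.eq_zero_or_pos j with rfl | hj0
    · rw [uu_zero, sub_zero, h1]
      rcases le_or_gt (x v) 0 with h | h
      · have : x v = -1 := by rw [abs_of_nonpos h] at s1; push_cast at s1; omega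
        have h2 := hy (v, true) (v, false) (by simp [sv, this])
        simp only [sv] at h2
        simp only [ep, this]
        norm_num
        simp at h2
        linarith
      · have : x v = 1 := by rw [abs_of_pos h] at s1; push_cast at s1; omega
        have h2 := hy (v, false) (v, true) (by simp [sv, this])
        simp only [sv] at h2
        simp only [ep, this]
        norm_num
        simp at h2
        linarith
    · obtain ⟨w, hw⟩ := rr_surj hx (i := j) (by omega) (by omega)
      have h2 := uu_rr hx y w
      rw [hw] at h2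
      have s2 := (rr_spec hx w).2.2
      rw [hw] at s2
      rw [h1, h2, sub_pos]
      -- signed labels
      have key : ∀ u : P, ∃ a : P × Bool, sv x a = |x u| ∧ sv y a = ep x u * y u := by
        intro u
        rcases le_or_gt (x u) 0 with h | h
        · exact ⟨(u, false), by simp [sv, abs_of_nonpos h], by simp [sv, ep, not_lt.2 h]⟩
        · exact ⟨(u, true), by simp [sv, abs_of_pos h], by simp [sv, ep, h]⟩
      obtain ⟨a, ha1, ha2⟩ := key v
      obtain ⟨b, hb1, hb2⟩ := key w
      rw [← ha2, ← hb2]
      apply hy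
      rw [ha1, hb1, s1, s2]
      push_cast
      omega
  · intro h
    have hmono : ∀ i j, i < j → j ≤ Fintype.card P → uu x y i < uu x y j := by
      intro i j hij hj
      rw [uu_eq_sum y i j hij.le]
      have : 0 < ∑ l ∈ Finset.Ico i j, gp x y l := by
        apply Finset.sum_pos
        · intro l hl
          exact h l (by have := Finset.mem_Ico.1 hl; omega)
        · exact Finset.nonempty_Ico.2 hij
      linarith
    have hpos : ∀ u : P, 0 < ep x u * y u := by
      intro u
      rw [← uu_rr hx, ← uu_zero (x := x) y]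
      exact hmono 0 _ (by have := (rr_spec hx u).1; omega) (rr_spec hx u).2.1
    -- every signed label is ± a level
    have key : ∀ a : P × Bool, (sv x a = |x a.1| ∧ sv y a = ep x a.1 * y a.1) ∨
        (sv x a = -|x a.1| ∧ sv y a = -(ep x a.1 * y a.1)) := by
      rintro ⟨u, b⟩
      rcases le_or_gt (x u) 0 with h' | h' <;> cases b
      · left; simp [sv, ep, abs_of_nonpos h', not_lt.2 h']
      · right; simp [sv, ep, abs_of_nonpos h', not_lt.2 h']
      · right; simp [sv, ep, abs_of_pos h', h']
      · left; simp [sv, ep, abs_of_pos h', h']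
    have hlt : ∀ u w : P, |x u| < |x w| → ep x u * y u < ep x w * y w := by
      intro u w huw
      rw [← uu_rr hx, ← uu_rr hx]
      apply hmono _ _ _ (rr_spec hx w).2.1
      rw [(rr_spec hx u).2.2, (rr_spec hx w).2.2] at huw
      omega
    intro a b hab
    rcases key a with ⟨a1, a2⟩ | ⟨a1, a2⟩ <;> rcases key b with ⟨b1, b2⟩ | ⟨b1, b2⟩
    · rw [a2, b2]
      rw [a1, b1] at hab
      exact hlt _ _ hab
    · rw [a1, b1] at hab
      have := abs_nonneg (x a.1)
      have := abs_nonneg (x b.1)
      omega
    · rw [a2, b2]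
      have := hpos a.1
      have := hpos b.1
      linarith
    · rw [a2, b2]
      rw [a1, b1] at hab
      have := hlt b.1 a.1 (by omega)
      linarith

end lev

section mono

variable {P : Type} [Fintype P] [DecidableEq P] [Nonempty P] {x : P → ℤ} {ρ : (P → ℝ) → ℝ}

omit [DecidableEq P] [Nonempty P] in
/-- superlevel sets are convex -/
theorem convex_ge (hρ : Sy1 ρ) (z : P → ℝ) : Convex ℝ {w | ρ z ≤ ρ w} := by
  intro a ha b hb s t hs ht hst
  simp only [mem_setOf_eq] at *
  rcases (hρ.nonneg z).eq_or_lt with h0 | h0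
  · rw [← h0]
    exact hρ.nonneg _
  rcases hs.eq_or_lt with hs0 | hs0
  · have : t = 1 := by linarith
    rw [← hs0, this, zero_smul, one_smul, zero_add]
    exact hb
  rcases ht.eq_or_lt with ht0 | ht0
  · have : s = 1 := by linarith
    rw [← ht0, this, zero_smul, one_smul, add_zero]
    exact ha
  have hs1 : s = 1 - t := by linarith
  subst hs1
  refine le_trans ?_ (hρ.logc a b t ht0 (by linarith))
  calc ρ z = ρ z ^ (1 - t) * ρ z ^ t := by
        rw [← Real.rpow_add h0]
        simp
    _ ≤ ρ a ^ (1 - t) * ρ b ^ t := by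
        apply mul_le_mul (Real.rpow_le_rpow h0.le ha hs) (Real.rpow_le_rpow h0.le hb ht)
          (Real.rpow_nonneg h0.le _) (Real.rpow_nonneg (hρ.nonneg a) _)

/-- speeds of the levels -/
noncomputable def cc (n k : ℕ) (i : ℕ) : ℝ :=
  if i = k + 1 then -((n : ℝ) - k - 1) else if k + 2 ≤ i then 1 else 0

/-- direction of the lines -/
noncomputable def ee (x : P → ℤ) (k : ℕ) : P → ℝ := vec x (cc (Fintype.card P) k)

theorem gp_ee (hx : x ∈ XX P) {k j : ℕ} (hk : k + 1 < Fintype.card P) (hj : j < Fintype.card P) :
    gp x (ee x k) j = if j = k then -((Fintype.card P : ℝ) - k - 1)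
      else if j = k + 1 then (Fintype.card P : ℝ) - k else 0 := by
  have h1 : uu x (ee x k) (j + 1) = cc (Fintype.card P) k (j + 1) :=
    uu_vec hx _ (by omega) (by omega)
  have h2 : uu x (ee x k) j = cc (Fintype.card P) k j := by
    rcases Nat.eq_zero_or_pos j with rfl | h
    · rw [uu_zero, cc, if_neg (by omega), if_neg (by omega)]
    · exact uu_vec hx _ (by omega) (by omega)
  unfold gp
  rw [h1, h2]
  unfold cc
  rcases lt_trichotomy j k with h | h | h
  · rw [if_neg (by omega), if_neg (by omega), if_neg (by omega), if_neg (by omega),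
      if_neg (by omega), if_neg (by omega)]
    ring
  · subst h
    rw [if_pos rfl, if_neg (by omega), if_neg (by omega), if_pos rfl]
    ring
  · rcases (show k + 1 ≤ j by omega).eq_or_lt with h' | h'
    · subst h'
      rw [if_neg (by omega), if_pos (by omega), if_pos rfl, if_neg (by omega), if_pos rfl]
      ring
    · rw [if_neg (by omega), if_pos (by omega), if_neg (by omega), if_pos (by omega),
        if_neg (by omega), if_neg (by omega)]
      ring

/-- exchange of two levels does not change the density -/
theorem rho_swap (hx : x ∈ XX P) (hρ : Sy1 ρ) (w : ℕ → ℝ) {i j : ℕ} (hi1 : 1 ≤ i)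
    (hi2 : i ≤ Fintype.card P) (hj1 : 1 ≤ j) (hj2 : j ≤ Fintype.card P) :
    ρ (vec x fun r => w (Equiv.swap i j r)) = ρ (vec x w) := by
  obtain ⟨v₁, rfl⟩ := rr_surj hx hi1 hi2
  obtain ⟨v₂, rfl⟩ := rr_surj hx hj1 hj2
  apply hρ.inv (Equiv.swap v₁ v₂)
  intro v
  simp only [vec]
  rw [abs_mul, abs_mul, abs_ep, abs_ep, one_mul, one_mul, (rr_inj hx).swap_apply]

/-- **(M)**: the density does not increase along the direction `ee`. -/
theorem mono_ee (hx : x ∈ XX P) (hρ : Sy1 ρ) {k : ℕ} (hk : k + 1 < Fintype.card P) (y : P → ℝ)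
    {t : ℝ} (ht : 0 ≤ t) (hy : ∀ j < Fintype.card P, 0 ≤ gp x y j) :
    ρ (y + t • ee x k) ≤ ρ y := by
  set n := Fintype.card P with hn
  rcases ht.eq_or_lt with ht0 | ht0
  · rw [← ht0, zero_smul, add_zero]
  set z := y + t • ee x k with hz
  have hw : ∀ i, 1 ≤ i → i ≤ n → uu x z i = uu x y i + t * cc n k i := by
    intro i h1 h2
    rw [hz, uu_add, ee, uu_vec hx _ h1 h2]
  have hmono : ∀ i j, i ≤ j → j ≤ n → uu x y i ≤ uu x y j := by
    intro i j hij hj
    rw [uu_eq_sum y i j hij]
    have : 0 ≤ ∑ l ∈ Finset.Ico i j, gp x y l := by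
      apply Finset.sum_nonneg
      intro l hl
      exact hy l (by have := Finset.mem_Ico.1 hl; omega)
    linarith
  set w := uu x z with hwdef
  have hm : (2 : ℝ) ≤ (n : ℝ) - k := by
    have : ((k + 2 : ℕ) : ℝ) ≤ n := by exact_mod_cast hk
    push_cast at this
    linarith
  -- the denominators
  have hden : ∀ i ∈ Finset.Icc (k + 2) n, ((n : ℝ) - k) * t ≤ w i - w (k + 1) := by
    intro i hi
    have hi' := Finset.mem_Icc.1 hi
    rw [hw i (by omega) hi'.2, hw (k + 1) (by omega) (by omega)]
    have h1 := hmono (k + 1) i (by omega) hi'.2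
    have h2 : cc n k i = 1 := by rw [cc, if_neg (by omega), if_pos (by omega)]
    have h3 : cc n k (k + 1) = -((n : ℝ) - k - 1) := by rw [cc, if_pos rfl]
    rw [h2, h3]
    nlinarith
  have hmt : 0 < ((n : ℝ) - k) * t := by positivity
  have hdpos : ∀ i ∈ Finset.Icc (k + 2) n, 0 < w i - w (k + 1) := fun i hi =>
    lt_of_lt_of_le hmt (hden i hi)
  set la : ℕ → ℝ := fun i => t / (w i - w (k + 1)) with hla
  have hla0 : ∀ i ∈ Finset.Icc (k + 2) n, 0 ≤ la i := fun i hi =>
    div_nonneg ht (hdpos i hi).le
  have hla1 : ∀ i ∈ Finset.Icc (k + 2) n, la i ≤ 1 / ((n : ℝ) - k) := by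
    intro i hi
    rw [hla]
    simp only
    rw [div_le_div_iff₀ (hdpos i hi) (by linarith)]
    have := hden i hi
    linarith
  have hcard : (Finset.Icc (k + 2) n).card = n - k - 1 := by
    rw [Nat.card_Icc]
    omega
  have hcardR : ((n - k - 1 : ℕ) : ℝ) = (n : ℝ) - k - 1 := by
    rw [Nat.cast_sub (by omega), Nat.cast_sub (by omega)]
    simp
  have hsum : ∑ i ∈ Finset.Icc (k + 2) n, la i ≤ 1 := by
    calc ∑ i ∈ Finset.Icc (k + 2) n, la i ≤ ∑ i ∈ Finset.Icc (k + 2) n, 1 / ((n : ℝ) - k) :=
          Finset.sum_le_sum hla1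
      _ = ((n : ℝ) - k - 1) * (1 / ((n : ℝ) - k)) := by
          rw [Finset.sum_const, hcard, nsmul_eq_mul, hcardR]
      _ ≤ 1 := by
          rw [mul_one_div, div_le_one (by linarith)]
          linarith
  -- the convex combination
  have hcomb : y = (1 - ∑ i ∈ Finset.Icc (k + 2) n, la i) • vec x (fun r => w r) +
      ∑ i ∈ Finset.Icc (k + 2) n, la i • vec x (fun r => w (Equiv.swap (k + 1) i r)) := by
    funext v
    rw [Pi.add_apply, Pi.smul_apply, Finset.sum_apply, smul_eq_mul]
    simp only [Pi.smul_apply, smul_eq_mul, vec]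
    obtain ⟨r1, r2, -⟩ := rr_spec hx v
    have hyv : y v = ep x v * uu x y (rr x v) := by
      rw [uu_rr hx, ← mul_assoc, ep_sq, one_mul]
    rw [hyv]
    set r := rr x v
    have e1 : ∑ i ∈ Finset.Icc (k + 2) n, la i * (ep x v * w (Equiv.swap (k + 1) i r)) =
        ep x v * ∑ i ∈ Finset.Icc (k + 2) n, la i * w (Equiv.swap (k + 1) i r) := by
      rw [Finset.mul_sum]
      apply Finset.sum_congr rfl
      intro i _
      ring
    rw [e1]
    have e2 : uu x y r = (1 - ∑ i ∈ Finset.Icc (k + 2) n, la i) * w r +
        ∑ i ∈ Finset.Icc (k + 2) n, la i * w (Equiv.swap (k + 1) i r) := by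
      have hwr := hw r r1 r2
      rcases lt_trichotomy r (k + 1) with h | h | h
      · have e3 : ∑ i ∈ Finset.Icc (k + 2) n, la i * w (Equiv.swap (k + 1) i r) =
            (∑ i ∈ Finset.Icc (k + 2) n, la i) * w r := by
          rw [Finset.sum_mul]
          apply Finset.sum_congr rfl
          intro i hi
          have hi' := Finset.mem_Icc.1 hi
          rw [Equiv.swap_apply_of_ne_of_ne (by omega) (by omega)]
        have h2 : cc n k r = 0 := by rw [cc, if_neg (by omega), if_neg (by omega)]
        rw [h2] at hwr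
        rw [e3]
        linarith
      · have e3 : ∑ i ∈ Finset.Icc (k + 2) n, la i * w (Equiv.swap (k + 1) i r) =
            (∑ i ∈ Finset.Icc (k + 2) n, la i) * w r + ((n : ℝ) - k - 1) * t := by
          have e4 : ∀ i ∈ Finset.Icc (k + 2) n, la i * w (Equiv.swap (k + 1) i r) =
              la i * w r + t := by
            intro i hi
            rw [h, Equiv.swap_apply_left]
            have h5 := (hdpos i hi).ne'
            rw [hla]
            simp only
            field_simp
            ring
          rw [Finset.sum_congr rfl e4, Finset.sum_add_distrib, ← Finset.sum_mul, Finset.sum_const,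
            hcard, nsmul_eq_mul, hcardR]
        have h2 : cc n k r = -((n : ℝ) - k - 1) := by rw [h, cc, if_pos rfl]
        rw [h2] at hwr
        rw [e3]
        linarith
      · have hrm : r ∈ Finset.Icc (k + 2) n := Finset.mem_Icc.2 ⟨by omega, r2⟩
        have e3 : ∑ i ∈ Finset.Icc (k + 2) n, la i * w (Equiv.swap (k + 1) i r) =
            (∑ i ∈ Finset.Icc (k + 2) n, la i) * w r - t := by
          have e4 : ∀ i ∈ Finset.Icc (k + 2) n, la i * w (Equiv.swap (k + 1) i r) =
              la i * w r - if i = r then t else 0 := by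
            intro i hi
            have hi' := Finset.mem_Icc.1 hi
            by_cases hir : i = r
            · subst hir
              rw [Equiv.swap_apply_right, if_pos rfl]
              have h5 := (hdpos r hi).ne'
              rw [hla]
              simp only
              field_simp
              ring
            · rw [Equiv.swap_apply_of_ne_of_ne (by omega) (by omega), if_neg hir, sub_zero]
          rw [Finset.sum_congr rfl e4, Finset.sum_sub_distrib, ← Finset.sum_mul,
            Finset.sum_ite_eq' _ r, if_pos hrm]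
        have h2 : cc n k r = 1 := by rw [cc, if_neg (by omega), if_pos (by omega)]
        rw [h2] at hwr
        rw [e3]
        linarith
    rw [e2]
    ring
  have hzv : vec x (fun r => w r) = z := vec_uu hx z
  have hmem : y ∈ {w' | ρ z ≤ ρ w'} := by
    have hc := (convex_ge hρ z).sum_mem (t := insert (k + 1) (Finset.Icc (k + 2) n))
      (w := fun i => if i = k + 1 then 1 - ∑ i ∈ Finset.Icc (k + 2) n, la i else la i)
      (z := fun i => vec x (fun r => w (Equiv.swap (k + 1) i r))) ?_ ?_ ?_
    · rw [Finset.sum_insert (by simp)] at hc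
      rw [hcomb]
      have e5 : ∑ i ∈ Finset.Icc (k + 2) n,
          (if i = k + 1 then 1 - ∑ i ∈ Finset.Icc (k + 2) n, la i else la i) •
            vec x (fun r => w (Equiv.swap (k + 1) i r)) =
          ∑ i ∈ Finset.Icc (k + 2) n, la i • vec x (fun r => w (Equiv.swap (k + 1) i r)) := by
        apply Finset.sum_congr rfl
        intro i hi
        have hi' := Finset.mem_Icc.1 hi
        rw [if_neg (by omega)]
      rw [e5, if_pos rfl] at hc
      simpa using hc
    · intro i hi
      split_ifs with h
      · linarith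
      · rcases Finset.mem_insert.1 hi with h' | h'
        · exact absurd h' h
        · exact hla0 i h'
    · rw [Finset.sum_insert (by simp), if_pos rfl]
      have e5 : ∑ i ∈ Finset.Icc (k + 2) n,
          (if i = k + 1 then 1 - ∑ i ∈ Finset.Icc (k + 2) n, la i else la i) =
          ∑ i ∈ Finset.Icc (k + 2) n, la i := by
        apply Finset.sum_congr rfl
        intro i hi
        have hi' := Finset.mem_Icc.1 hi
        rw [if_neg (by omega)]
      rw [e5]
      ring
    · intro i hi
      have hi1 : 1 ≤ i ∧ i ≤ n := by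
        rcases Finset.mem_insert.1 hi with h' | h'
        · omega
        · have := Finset.mem_Icc.1 h'
          omega
      show ρ z ≤ _
      rw [rho_swap hx hρ w (by omega) (by omega) hi1.1 hi1.2]
      exact le_of_eq (by rw [show vec x w = z from hzv])
  exact hmem

end mono

section integ

variable {P : Type} [Fintype P]

theorem cov_int (f : Module.Dual ℝ (P → ℝ)) (e : P → ℝ) (hd : 1 + f e ≠ 0) {F : (P → ℝ) → ℝ}
    (hF : Integrable F) : Integrable fun y => F (y + f y • e) := by
  have hdet : LinearMap.det (LinearMap.transvection f e) = 1 + f e :=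
    LinearMap.transvection.det f e
  have h := Measure.map_linearMap_addHaar_eq_smul_addHaar (volume : Measure (P → ℝ))
    (f := LinearMap.transvection f e) (by rw [hdet]; exact hd)
  have hc : Continuous (LinearMap.transvection f e) := LinearMap.continuous_of_finiteDimensional _
  have h1 : Integrable F (Measure.map (LinearMap.transvection f e) volume) := by
    rw [h]
    exact hF.smul_measure ENNReal.ofReal_ne_top
  exact h1.comp_measurable hc.measurable

variable [DecidableEq P] [Nonempty P] {x : P → ℤ} {ρ : (P → ℝ) → ℝ}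

omit [DecidableEq P] [Nonempty P] in
theorem int_sq (hρ : Sy1 ρ) {s : ℝ} (hm : Mom2 ρ s) (v : P) :
    Integrable fun y : P → ℝ => y v ^ 2 * ρ y := by
  refine ⟨(((measurable_pi_apply v).pow_const 2).mul hρ.meas).aestronglyMeasurable, ?_⟩
  rw [hasFiniteIntegral_iff_ofReal
    (ae_of_all _ fun y => mul_nonneg (sq_nonneg _) (hρ.nonneg y))]
  exact (hm v).trans_lt ENNReal.ofReal_lt_top

theorem uu_sq_le (hx : x ∈ XX P) (y : P → ℝ) {i : ℕ} (hi : i ≤ Fintype.card P) :
    uu x y i ^ 2 ≤ ∑ v, y v ^ 2 := by
  rcases Nat.eq_zero_or_pos i with rfl | h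
  · rw [uu_zero]
    simp only [ne_eq, OfNat.ofNat_ne_zero, not_false_eq_true, zero_pow]
    positivity
  · obtain ⟨v, rfl⟩ := rr_surj hx h hi
    rw [uu_rr hx, mul_pow, sq (ep x v), ep_sq, one_mul]
    exact Finset.single_le_sum (f := fun v => y v ^ 2) (fun _ _ => sq_nonneg _) (Finset.mem_univ v)

theorem gp_sq_le (hx : x ∈ XX P) (y : P → ℝ) {k : ℕ} (hk : k < Fintype.card P) :
    gp x y k ^ 2 ≤ 4 * ∑ v, y v ^ 2 := by
  have h1 := uu_sq_le hx y (i := k) hk.le
  have h2 := uu_sq_le hx y (i := k + 1) hk
  unfold gp
  nlinarith [sq_nonneg (uu x y (k + 1) + uu x y k)]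

theorem int_gp (hx : x ∈ XX P) (hρ : Sy1 ρ) {s : ℝ} (hm : Mom2 ρ s) {k l : ℕ}
    (hk : k < Fintype.card P) (hl : l < Fintype.card P) :
    Integrable fun y : P → ℝ => gp x y k * gp x y l * ρ y := by
  have h1 : Integrable fun y : P → ℝ => ∑ v, 4 * (y v ^ 2 * ρ y) :=
    integrable_finset_sum _ fun v _ => (int_sq hρ hm v).const_mul 4
  refine h1.mono' (((measurable_gp k).mul (measurable_gp l)).mul hρ.meas).aestronglyMeasurable
    (ae_of_all _ fun y => ?_)
  rw [Real.norm_eq_abs, abs_mul, abs_of_nonneg (hρ.nonneg y), ← Finset.mul_sum,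
    ← Finset.sum_mul, ← mul_assoc]
  apply mul_le_mul_of_nonneg_right _ (hρ.nonneg y)
  have h2 := gp_sq_le hx y hk
  have h3 := gp_sq_le hx y hl
  rw [abs_le]
  constructor
  · nlinarith [sq_nonneg (gp x y k + gp x y l)]
  · nlinarith [sq_nonneg (gp x y k - gp x y l)]

theorem meas_Ch (hx : x ∈ XX P) : MeasurableSet (Ch x) := by
  have h : Ch x = ⋂ j ∈ Finset.range (Fintype.card P), {y | 0 < gp x y j} := by
    ext y
    rw [mem_Ch hx]
    simp
  rw [h]
  exact Finset.measurableSet_biInter _ fun j _ => measurableSet_lt measurable_const (measurable_gp j)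

end integ

section final

/-- **GP1.** -/
theorem t_GP1 : S_GP1 := by
  intro P _ _ _ ρ s x k hρ hm hx hk
  have hCh := meas_Ch hx
  set n := Fintype.card P with hn
  have hk' : k < n := by omega
  have hkR : ((k + 2 : ℕ) : ℝ) ≤ n := by exact_mod_cast hk
  push_cast at hkR
  set m : ℝ := (n : ℝ) - k with hmdef
  have hm2 : 2 ≤ m := by linarith
  have hm0 : 0 < m := by linarith
  have hm1 : 0 < m - 1 := by linarith
  have ek : gp x (ee x k) k = -(m - 1) := by
    rw [gp_ee hx hk hk', if_pos rfl]
  have ek1 : gp x (ee x k) (k + 1) = m := by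
    rw [gp_ee hx hk hk, if_neg (by omega), if_pos rfl]
  have el : ∀ l < n, l ≠ k → l ≠ k + 1 → gp x (ee x k) l = 0 := by
    intro l hl h1 h2
    rw [gp_ee hx hk hl, if_neg h1, if_neg h2]
  constructor
  · intro l hl hlk hlk1
    -- the involution
    set f : Module.Dual ℝ (P → ℝ) := (1 / (m * (m - 1))) • (m • gpL x k - (m - 1) • gpL x (k + 1))
      with hf
    have fy : ∀ y, f y = (1 / (m * (m - 1))) * (m * gp x y k - (m - 1) * gp x y (k + 1)) := by
      intro y
      rfl
    have fe : f (ee x k) = -2 := by
      rw [fy, ek, ek1]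
      field_simp
      ring
    have i1 : ∀ y, gp x (y + f y • ee x k) k = (m - 1) / m * gp x y (k + 1) := by
      intro y
      rw [gp_add, ek, fy]
      field_simp
      ring
    have i2 : ∀ y, gp x (y + f y • ee x k) (k + 1) = m / (m - 1) * gp x y k := by
      intro y
      rw [gp_add, ek1, fy]
      field_simp
      ring
    have i3 : ∀ y, ∀ j < n, j ≠ k → j ≠ k + 1 → gp x (y + f y • ee x k) j = gp x y j := by
      intro y j hj h1 h2
      rw [gp_add, el j hj h1 h2, mul_zero, add_zero]
    have iCh : ∀ y, y + f y • ee x k ∈ Ch x ↔ y ∈ Ch x := by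
      intro y
      rw [mem_Ch hx, mem_Ch hx]
      constructor
      · intro h j hj
        by_cases h1 : j = k
        · have h2 := h (k + 1) hk
          rw [i2] at h2
          rw [h1]
          exact (mul_pos_iff_of_pos_left (by positivity)).1 h2
        by_cases h2 : j = k + 1
        · have h3 := h k hk'
          rw [i1] at h3
          rw [h2]
          exact (mul_pos_iff_of_pos_left (by positivity)).1 h3
        rw [← i3 y j hj h1 h2]
        exact h j hj
      · intro h j hj
        by_cases h1 : j = k
        · rw [h1, i1]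
          have := h (k + 1) hk
          positivity
        by_cases h2 : j = k + 1
        · rw [h2, i2]
          have := h k hk'
          positivity
        rw [i3 y j hj h1 h2]
        exact h j hj
    set G : (P → ℝ) → ℝ := fun y => m * (gp x y k * gp x y l * ρ y) -
      (m - 1) * (gp x y (k + 1) * gp x y l * ρ y) with hG
    have hGint : Integrable G :=
      ((int_gp hx hρ hm hk' hl).const_mul m).sub ((int_gp hx hρ hm hk hl).const_mul (m - 1))
    have hGmeas : Measurable G :=
      ((((measurable_gp k).mul (measurable_gp l)).mul hρ.meas).const_mul m).sub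
        ((((measurable_gp (k + 1)).mul (measurable_gp l)).mul hρ.meas).const_mul (m - 1))
    set F : (P → ℝ) → ℝ := (Ch x).indicator G with hF
    have hFint : Integrable F := hGint.indicator hCh
    have hFmeas : Measurable F := hGmeas.indicator hCh
    have hFF : ∫ y, F (y + f y • ee x k) = ∫ y, F y := by
      rw [cov f (ee x k) (by rw [fe]; norm_num) F hFmeas, fe]
      norm_num
    have hFint' : Integrable fun y => F (y + f y • ee x k) :=
      cov_int f (ee x k) (by rw [fe]; norm_num) hFint
    have hpos : 0 ≤ ∫ y, (F y + F (y + f y • ee x k)) := by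
      apply integral_nonneg
      intro y
      show 0 ≤ F y + F (y + f y • ee x k)
      by_cases hy : y ∈ Ch x
      · have hy' := (iCh y).2 hy
        rw [hF, indicator_of_mem hy, indicator_of_mem hy', hG]
        simp only
        rw [i1, i2, i3 y l hl hlk hlk1]
        have e1 : m * (gp x y k * gp x y l * ρ y) - (m - 1) * (gp x y (k + 1) * gp x y l * ρ y) +
            (m * ((m - 1) / m * gp x y (k + 1) * gp x y l * ρ (y + f y • ee x k)) -
              (m - 1) * (m / (m - 1) * gp x y k * gp x y l * ρ (y + f y • ee x k))) =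
            gp x y l * ((m * gp x y k - (m - 1) * gp x y (k + 1)) *
              (ρ y - ρ (y + f y • ee x k))) := by
          field_simp
          ring
        rw [e1]
        apply mul_nonneg ((mem_Ch hx y).1 hy l hl).le
        rcases le_total 0 (f y) with h | h
        · have h1 := mono_ee hx hρ hk y h fun j hj => ((mem_Ch hx y).1 hy j hj).le
          rw [fy] at h
          have h2 : 0 ≤ m * gp x y k - (m - 1) * gp x y (k + 1) :=
            (mul_nonneg_iff_of_pos_left (by positivity)).1 h
          exact mul_nonneg h2 (by linarith)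
        · have h1 := mono_ee hx hρ hk (y + f y • ee x k) (t := -f y) (by linarith)
            fun j hj => ((mem_Ch hx _).1 hy' j hj).le
          have h3 : y + f y • ee x k + (-f y) • ee x k = y := by
            rw [neg_smul]
            abel
          rw [h3] at h1
          rw [fy] at h
          have h2 : m * gp x y k - (m - 1) * gp x y (k + 1) ≤ 0 := by
            by_contra hc
            push Not at hc
            have : 0 < 1 / (m * (m - 1)) * (m * gp x y k - (m - 1) * gp x y (k + 1)) := by
              positivity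
            linarith
          exact mul_nonneg_of_nonpos_of_nonpos h2 (by linarith)
      · have hy' : y + f y • ee x k ∉ Ch x := fun h => hy ((iCh y).1 h)
        rw [hF, indicator_of_notMem hy, indicator_of_notMem hy']
        simp
    rw [integral_add hFint hFint', hFF] at hpos
    have h1 : ∫ y, F y = m * qq ρ x k l - (m - 1) * qq ρ x (k + 1) l := by
      rw [hF, integral_indicator hCh, hG, integral_sub, integral_const_mul, integral_const_mul]
      · rfl
      · exact ((int_gp hx hρ hm hk' hl).const_mul m).integrableOn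
      · exact ((int_gp hx hρ hm hk hl).const_mul (m - 1)).integrableOn
    rw [h1] at hpos
    linarith
  · -- halving
    set f : Module.Dual ℝ (P → ℝ) := (-(1 / (2 * m))) • gpL x (k + 1) with hf
    have fy : ∀ y, f y = -(1 / (2 * m)) * gp x y (k + 1) := by
      intro y
      rfl
    have fe : f (ee x k) = -(1 / 2) := by
      rw [fy, ek1]
      field_simp
    have i1 : ∀ y, gp x (y + f y • ee x k) k = gp x y k + (m - 1) / (2 * m) * gp x y (k + 1) := by
      intro y
      rw [gp_add, ek, fy]
      ring
    have i2 : ∀ y, gp x (y + f y • ee x k) (k + 1) = gp x y (k + 1) / 2 := by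
      intro y
      rw [gp_add, ek1, fy]
      field_simp
      ring
    have i3 : ∀ y, ∀ j < n, j ≠ k → j ≠ k + 1 → gp x (y + f y • ee x k) j = gp x y j := by
      intro y j hj h1 h2
      rw [gp_add, el j hj h1 h2, mul_zero, add_zero]
    have iCh : ∀ y, y ∈ Ch x → y + f y • ee x k ∈ Ch x := by
      intro y
      rw [mem_Ch hx, mem_Ch hx]
      intro h j hj
      by_cases h1 : j = k
      · rw [h1, i1]
        have := h k hk'
        have := h (k + 1) hk
        positivity
      by_cases h2 : j = k + 1
      · rw [h2, i2]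
        have := h (k + 1) hk
        positivity
      rw [i3 y j hj h1 h2]
      exact h j hj
    set G : (P → ℝ) → ℝ := fun y => gp x y k * gp x y (k + 1) * ρ y with hG
    have hGint : Integrable G := int_gp hx hρ hm hk' hk
    have hGmeas : Measurable G := ((measurable_gp k).mul (measurable_gp (k + 1))).mul hρ.meas
    set F : (P → ℝ) → ℝ := (Ch x).indicator G with hF
    have hFint : Integrable F := hGint.indicator hCh
    have hFmeas : Measurable F := hGmeas.indicator hCh
    have hFF : ∫ y, F (y + f y • ee x k) = 2 * ∫ y, F y := by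
      rw [cov f (ee x k) (by rw [fe]; norm_num) F hFmeas, fe]
      norm_num
    have hFint' : Integrable fun y => F (y + f y • ee x k) :=
      cov_int f (ee x k) (by rw [fe]; norm_num) hFint
    have hHint : Integrable ((Ch x).indicator fun y =>
        (m - 1) / (4 * m) * (gp x y (k + 1) * gp x y (k + 1) * ρ y)) :=
      ((int_gp hx hρ hm hk hk).const_mul _).indicator hCh
    have hle : ∫ y, (Ch x).indicator (fun y =>
        (m - 1) / (4 * m) * (gp x y (k + 1) * gp x y (k + 1) * ρ y)) y ≤
        ∫ y, F (y + f y • ee x k) := by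
      apply integral_mono hHint hFint'
      intro y
      show (Ch x).indicator (fun y =>
        (m - 1) / (4 * m) * (gp x y (k + 1) * gp x y (k + 1) * ρ y)) y ≤ F (y + f y • ee x k)
      by_cases hy : y ∈ Ch x
      · have hy' := iCh y hy
        rw [hF, indicator_of_mem hy, indicator_of_mem hy', hG]
        simp only
        rw [i1, i2]
        have hg0 := (mem_Ch hx y).1 hy k hk'
        have hg1 := (mem_Ch hx y).1 hy (k + 1) hk
        have h1 := mono_ee hx hρ hk (y + f y • ee x k) (t := -f y)
          (by rw [fy]; have : 0 ≤ 1 / (2 * m) * gp x y (k + 1) := by positivity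
              linarith)
          fun j hj => ((mem_Ch hx _).1 hy' j hj).le
        have h3 : y + f y • ee x k + (-f y) • ee x k = y := by
          rw [neg_smul]
          abel
        rw [h3] at h1
        have h4 := hρ.nonneg y
        calc (m - 1) / (4 * m) * (gp x y (k + 1) * gp x y (k + 1) * ρ y)
            = ((m - 1) / (2 * m) * gp x y (k + 1)) * (gp x y (k + 1) / 2) * ρ y := by
              field_simp
              ring
          _ ≤ (gp x y k + (m - 1) / (2 * m) * gp x y (k + 1)) * (gp x y (k + 1) / 2) *
              ρ (y + f y • ee x k) := by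
              apply mul_le_mul _ h1 h4 (by positivity)
              apply mul_le_mul_of_nonneg_right _ (by positivity)
              linarith
      · rw [indicator_of_notMem hy, hF]
        apply indicator_nonneg
        intro z hz
        have hg0 := (mem_Ch hx z).1 hz k hk'
        have hg1 := (mem_Ch hx z).1 hz (k + 1) hk
        exact mul_nonneg (mul_pos hg0 hg1).le (hρ.nonneg z)
    rw [hFF, integral_indicator hCh, integral_const_mul] at hle
    have h1 : ∫ y, F y = qq ρ x k (k + 1) := by
      rw [hF, integral_indicator hCh, hG]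
      rfl
    rw [h1] at hle
    have h2 : (m - 1) / (4 * m) * qq ρ x (k + 1) (k + 1) ≤ 2 * qq ρ x k (k + 1) := hle
    rw [div_mul_eq_mul_div, div_le_iff₀ (by positivity)] at h2
    linarith

end final

end Run7.h760.KF
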